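import Pool.Agent.W325.SD.Main

set_option autoImplicit false

/-!
Domination in 4-uniform hypergraphs: `γ ≤ n / 4`, and the surface `z_4`.
-/

namespace Pool.Agent.TH490.DH

open Finset

/-- `D` is a dominating set of the hypergraph with edge set `E` on the vertex set `V`: every vertex
outside `D` lies in a common edge with a vertex of `D`. -/
def IsDom {V : Type*} (E : Finset (Finset V)) (D : Finset V) : Prop :=
  ∀ v, v ∉ D → ∃ u ∈ D, ∃ e ∈ E, u ∈ e ∧ v ∈ e

/-- The domination number. -/
noncomputable def gam {V : Type*} (E : Finset (Finset V)) : ℕ :=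
  sInf {c | ∃ D : Finset V, IsDom E D ∧ D.card = c}

/-- `E` is the edge set of a `k`-uniform hypergraph on `V` without isolated vertices. -/
def IsHyp {V : Type*} (k : ℕ) (E : Finset (Finset V)) : Prop :=
  (∀ e ∈ E, e.card = k) ∧ ∀ v, ∃ e ∈ E, v ∈ e

/-- The ratios `γ(H) / (x n_H + y m_H)` of the `k`-uniform hypergraphs `H` without isolated
vertices (with at least one vertex). -/
def ratios (k : ℕ) (x y : ℝ) : Set ℝ :=
  {r | ∃ (n : ℕ) (E : Finset (Finset (Fin n))), 0 < n ∧ IsHyp k E ∧
    r = gam E / (x * n + y * E.card)}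

/-- `z_k(x, y)` -/
noncomputable def zk (k : ℕ) (x y : ℝ) : ℝ := sSup (ratios k x y)

open Pool.Agent.W325.SD in
theorem f_bound (d : ℕ) : 1 - f (d + 1) ≤ 1 / 4 + ((d + 1 : ℕ) : ℚ) / 12 := by
  induction d with
  | zero => norm_num [f]
  | succ d ih =>
    have h1 : g (d + 1) ≤ g 1 := g_anti (by omega)
    have h2 : g 1 = 1 / 12 := by norm_num [g, f]
    have h3 : g (d + 1) = f (d + 1) - f (d + 1 + 1) := rfl
    push_cast at ih ⊢
    linarith

open Pool.Agent.W325.SD in
/-- Every 4-uniform hypergraph without isolated vertices has a dominating set of at most `n / 4`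
vertices. -/
theorem four {V : Type*} [Fintype V] [DecidableEq V] (E : Finset (Finset V)) (hE : IsHyp 4 E) :
    ∃ D : Finset V, IsDom E D ∧ 4 * D.card ≤ Fintype.card V := by
  classical
  rcases isEmpty_or_nonempty V with hV | hV
  · exact ⟨∅, fun v => (hV.false v).elim, by simp⟩
  -- minimal cover
  let P : Finset (Finset (Finset V)) := E.powerset.filter (fun A => ∀ v, ∃ e ∈ A, v ∈ e)
  have hP : P.Nonempty := ⟨E, mem_filter.2 ⟨mem_powerset.2 subset_rfl, hE.2⟩⟩
  obtain ⟨A, hA, hmin⟩ := exists_min_image P card hP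
  obtain ⟨hAE, hcov⟩ := mem_filter.1 hA
  rw [mem_powerset] at hAE
  have hpriv : ∀ e ∈ A, ∃ v ∈ e, ∀ e' ∈ A, v ∈ e' → e' = e := by
    intro e he
    by_contra hcon
    push Not at hcon
    have h1 : A.erase e ∈ P := by
      refine mem_filter.2 ⟨mem_powerset.2 ((erase_subset _ _).trans hAE), fun v => ?_⟩
      obtain ⟨e1, he1, hv1⟩ := hcov v
      by_cases h : e1 = e
      · obtain ⟨e2, he2, hv2, hne⟩ := hcon v (h ▸ hv1)
        exact ⟨e2, mem_erase.2 ⟨hne, he2⟩, hv2⟩
      · exact ⟨e1, mem_erase.2 ⟨h, he1⟩, hv1⟩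
    have h2 := hmin _ h1
    have h3 := card_erase_lt_of_mem he
    omega
  choose! p hpe hp using hpriv
  have hinj : Set.InjOn p (A : Set (Finset V)) := by
    intro e he e' he' h
    exact hp e' he' e he (h ▸ hpe e he)
  let E3 : Finset (Finset V) := A.image (fun e => e.erase (p e))
  have h3 : ∀ s ∈ E3, s.card = 3 := by
    intro s hs
    obtain ⟨e, he, rfl⟩ := mem_image.1 hs
    rw [card_erase_of_mem (hpe e he), hE.1 e (hAE he)]
  obtain ⟨S, hS, hSc⟩ := transversal E3.card E3 le_rfl h3
  refine ⟨S, ?_, ?_⟩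
  · intro v hv
    obtain ⟨e, he, hve⟩ := hcov v
    obtain ⟨u, hu, huS⟩ := not_disjoint_iff.1 (hS _ (mem_image_of_mem _ he))
    exact ⟨u, huS, e, hAE he, mem_of_mem_erase hu, hve⟩
  · -- count
    let Q : Finset V := A.image p
    have hQc : Q.card = A.card := card_image_of_injOn hinj
    have hdeg0 : ∀ v ∈ Q, deg E3 v = 0 := by
      intro v hv
      obtain ⟨e, he, rfl⟩ := mem_image.1 hv
      unfold deg
      rw [card_eq_zero, filter_eq_empty_iff]
      intro s hs hps
      obtain ⟨e', he', rfl⟩ := mem_image.1 hs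
      have h1 := hp e he e' he' (mem_of_mem_erase hps)
      subst h1
      exact notMem_erase _ _ hps
    have hpt : ∀ v ∈ (univ : Finset V),
        1 - f (deg E3 v) ≤ (if v ∈ Q then 0 else 1 / 4) + (deg E3 v : ℚ) / 12 := by
      intro v _
      by_cases hv : v ∈ Q
      · rw [if_pos hv, hdeg0 v hv]
        norm_num [f]
      · rw [if_neg hv]
        rcases Nat.eq_zero_or_pos (deg E3 v) with h | h
        · rw [h]; norm_num [f]
        · obtain ⟨d, hd⟩ : ∃ d, deg E3 v = d + 1 := ⟨deg E3 v - 1, by omega⟩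
          rw [hd]
          exact f_bound d
    have hs := sum_le_sum hpt
    rw [sum_add_distrib, ← sum_div, ← Nat.cast_sum, sum_deg E3 h3] at hs
    have hite : ∑ v : V, (if v ∈ Q then (0 : ℚ) else 1 / 4)
        = ((Fintype.card V : ℚ) - A.card) / 4 := by
      have h1 : ∀ v : V, (if v ∈ Q then (0 : ℚ) else 1 / 4)
          = 1 / 4 - (if v ∈ Q then 1 / 4 else 0) := by
        intro v; split_ifs <;> ring
      rw [sum_congr rfl (fun v _ => h1 v), sum_sub_distrib, sum_const, card_univ, nsmul_eq_mul,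
        ← sum_filter, filter_mem_eq_inter, univ_inter, sum_const, nsmul_eq_mul, hQc]
      ring
    rw [hite] at hs
    have hE3 : (E3.card : ℚ) ≤ A.card := by exact_mod_cast card_image_le
    have hfin : (S.card : ℚ) ≤ (Fintype.card V : ℚ) / 4 := by
      refine hSc.trans ?_
      unfold Phi
      refine hs.trans ?_
      push_cast
      linarith
    have : (4 : ℚ) * S.card ≤ Fintype.card V := by linarith
    exact_mod_cast this

theorem gam_le {V : Type*} (E : Finset (Finset V)) (D : Finset V) (h : IsDom E D) :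
    gam E ≤ D.card := Nat.sInf_le ⟨D, h, rfl⟩

theorem four_gam {n : ℕ} (E : Finset (Finset (Fin n))) (hE : IsHyp 4 E) : 4 * gam E ≤ n := by
  obtain ⟨D, hD, hc⟩ := four E hE
  have := gam_le E D hD
  rw [Fintype.card_fin] at hc
  omega

theorem n_le {k n : ℕ} (E : Finset (Finset (Fin n))) (hE : IsHyp k E) : n ≤ k * E.card := by
  classical
  have h1 : (univ : Finset (Fin n)) ⊆ E.biUnion id := by
    intro v _
    obtain ⟨e, he, hv⟩ := hE.2 v
    exact mem_biUnion.2 ⟨e, he, hv⟩
  have h2 := (card_le_card h1).trans card_biUnion_le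
  rw [card_univ, Fintype.card_fin] at h2
  refine h2.trans ?_
  rw [sum_congr rfl (fun e he => by rw [id, hE.1 e he]), sum_const, smul_eq_mul, mul_comm]

theorem single (k : ℕ) (hk : 1 ≤ k) : IsHyp k ({univ} : Finset (Finset (Fin k))) ∧
    gam ({univ} : Finset (Finset (Fin k))) = 1 := by
  refine ⟨⟨fun e he => ?_, fun v => ⟨univ, mem_singleton_self _, mem_univ _⟩⟩, ?_⟩
  · rw [mem_singleton.1 he, card_univ, Fintype.card_fin]
  · apply le_antisymm
    · have h0 : (⟨0, hk⟩ : Fin k) ∈ (univ : Finset (Fin k)) := mem_univ _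
      have := gam_le ({univ} : Finset (Finset (Fin k))) {⟨0, hk⟩}
        (fun v _ => ⟨⟨0, hk⟩, mem_singleton_self _, univ, mem_singleton_self _, h0, mem_univ _⟩)
      simpa using this
    · have hne : {c | ∃ D : Finset (Fin k), IsDom ({univ} : Finset (Finset (Fin k))) D ∧
          D.card = c}.Nonempty := by
        refine ⟨_, univ, ?_, rfl⟩
        intro v hv
        exact absurd (mem_univ v) hv
      obtain ⟨D, hD, hDc⟩ := Nat.sInf_mem hne
      by_contra hcon
      have h0 : gam ({univ} : Finset (Finset (Fin k))) = 0 := by omega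
      have h1 : D.card = 0 := hDc.trans h0
      rw [card_eq_zero] at h1
      subst h1
      obtain ⟨u, hu, -⟩ := hD ⟨0, hk⟩ (notMem_empty _)
      exact notMem_empty _ hu

/-- The surface for `k = 4`. -/
theorem z4 (x y : ℝ) (hy : 0 ≤ y) (hx : -y / 4 < x) :
    IsGreatest (ratios 4 x y) (1 / (4 * x + y)) := by
  have hpos : 0 < 4 * x + y := by linarith
  constructor
  · refine ⟨4, {univ}, by norm_num, (single 4 (by norm_num)).1, ?_⟩
    rw [(single 4 (by norm_num)).2]
    simp only [card_singleton]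
    push_cast
    rw [mul_comm x 4, mul_one]
  · rintro r ⟨n, E, hn, hE, rfl⟩
    have h1 : (4 : ℝ) * gam E ≤ n := by exact_mod_cast four_gam E hE
    have h2 : (n : ℝ) ≤ 4 * E.card := by exact_mod_cast n_le E hE
    have hn' : (0 : ℝ) < n := by exact_mod_cast hn
    have h3 : (n : ℝ) / 4 * (4 * x + y) ≤ x * n + y * E.card := by
      nlinarith
    have h4 : 0 < x * n + y * E.card := lt_of_lt_of_le (by positivity) h3
    rw [div_le_div_iff₀ h4 hpos, one_mul]
    refine le_trans ?_ h3
    have h5 : (gam E : ℝ) ≤ (n : ℝ) / 4 := by linarith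
    exact mul_le_mul_of_nonneg_right h5 hpos.le

theorem zk_four (x y : ℝ) (hy : 0 ≤ y) (hx : -y / 4 < x) : zk 4 x y = 1 / (4 * x + y) :=
  (z4 x y hy hx).csSup_eq

end Pool.Agent.TH490.DH
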